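import Mathlib
import Pool.Agent.V11133.ZS.Main

/-!
# Zero-sum Ramsey numbers over a finite abelian group: `R(G, Γ) ≤ |V(G)| + C(Γ)`

For every finite abelian group `Γ` (in particular the Klein four-group, whose exponent is `2`) there
is a constant `C` such that `R(G, Γ) ≤ n + C` for every graph `G` on `n` vertices whose number of
edges is divisible by the exponent of `Γ`.
-/

set_option autoImplicit false

namespace Pool.Agent.Results.MP_c15e47_co.AllGroups

/-- Every colouring of the edges of the complete graph on `N` vertices with the elements of `Γ`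
contains a zero-sum copy of `G`. (Colourings are defined on all unordered pairs; the values on the
pairs `{x, x}` play no role, the map `φ` being injective.) -/
def Forces {n : ℕ} (G : SimpleGraph (Fin n)) (Γ : Type) [AddCommGroup Γ] (N : ℕ) : Prop :=
  ∀ c : Sym2 (Fin N) → Γ, ∃ φ : Fin n ↪ Fin N, ∑ᶠ e ∈ G.edgeSet, c (Sym2.map φ e) = 0

/-- The zero-sum Ramsey number `R(G, Γ)`: the least `N` such that every colouring of the edges of
`K_N` with the elements of `Γ` contains a zero-sum copy of `G`. -/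
noncomputable def R {n : ℕ} (G : SimpleGraph (Fin n)) (Γ : Type) [AddCommGroup Γ] : ℕ :=
  sInf {N : ℕ | Forces G Γ N}

theorem result (Γ : Type) [AddCommGroup Γ] [Finite Γ] :
    ∃ C : ℕ, ∀ (n : ℕ) (G : SimpleGraph (Fin n)), AddMonoid.exponent Γ ∣ G.edgeSet.ncard →
      (∀ N : ℕ, n + C ≤ N → Forces G Γ N) ∧ R G Γ ≤ n + C := by
  classical
  have := Fintype.ofFinite Γ
  obtain ⟨C, hC⟩ := V11133.ZS.main' Γ
  refine ⟨C, fun n G hG => ?_⟩
  have key : ∀ N : ℕ, n + C ≤ N → Forces G Γ N := by
    intro N hN c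
    have hG' : ∀ a : Γ, G.edgeFinset.card • a = 0 := by
      intro a
      have hc : G.edgeFinset.card = G.edgeSet.ncard := by
        rw [Set.ncard_eq_toFinset_card' G.edgeSet]
        rfl
      obtain ⟨t, ht⟩ := hG
      rw [hc, ht, mul_comm, mul_smul, AddMonoid.exponent_nsmul_eq_zero, smul_zero]
    obtain ⟨ρ, hρ, hS⟩ := hC (Fin n) (Fin N) G hG' (by simpa using hN) c
    refine ⟨⟨ρ, hρ⟩, ?_⟩
    rw [← hS, Pool.Agent.H730R3.S]
    rw [finsum_mem_eq_toFinset_sum]
    rfl
  exact ⟨key, Nat.sInf_le (key (n + C) le_rfl)⟩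

/-- The case of the Klein four-group, for reference. -/
theorem klein : ∃ C : ℕ, ∀ (n : ℕ) (G : SimpleGraph (Fin n)), Even G.edgeSet.ncard →
    R G (ZMod 2 × ZMod 2) ≤ n + C := by
  obtain ⟨C, hC⟩ := result (ZMod 2 × ZMod 2)
  refine ⟨C, fun n G hG => (hC n G ?_).2⟩
  refine dvd_trans (AddMonoid.exponent_dvd_of_forall_nsmul_eq_zero ?_) hG.two_dvd
  decide

end Pool.Agent.Results.MP_c15e47_co.AllGroups
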